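import Pool.Agent.H174.GM.Stmts2

/-!
# GSYM: symmetrisation of the Gog residue (project GM)
-/

set_option autoImplicit false

namespace Pool.Agent.H747.GM174

open Finset Pool.Agent.H174.GM

theorem sg_update {k : ℕ} (ε : Fin k → Bool) (j : Fin k) :
    sg (Function.update ε j (!ε j)) = - sg ε := by
  unfold sg
  rw [← Finset.mul_prod_erase univ _ (Finset.mem_univ j),
    ← Finset.mul_prod_erase univ (fun i => if ε i then (-1 : ℤ) else 1) (Finset.mem_univ j)]
  have h : ∏ x ∈ univ.erase j, (if Function.update ε j (!ε j) x then (-1 : ℤ) else 1)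
      = ∏ x ∈ univ.erase j, (if ε x then (-1 : ℤ) else 1) := by
    apply Finset.prod_congr rfl
    intro x hx
    rw [Function.update_of_ne (Finset.ne_of_mem_erase hx)]
  rw [h, Function.update_self]
  cases ε j <;> simp

theorem sg_mul_self {k : ℕ} (ε : Fin k → Bool) : sg ε * sg ε = 1 := by
  unfold sg
  rw [← Finset.prod_mul_distrib]
  apply Finset.prod_eq_one
  intro i _
  cases ε i <;> simp

theorem sg_false {k : ℕ} : sg (fun _ : Fin k => false) = 1 := by
  unfold sg; simp

/-- A function on sign changes which is odd in every bit. -/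
theorem odd_fun {k : ℕ} (g : (Fin k → Bool) → ℚ)
    (hg : ∀ (ε : Fin k → Bool) (j : Fin k), g ε = - g (Function.update ε j (!ε j)))
    (ε : Fin k → Bool) : g ε = (sg ε : ℚ) * g (fun _ => false) := by
  have key : ∀ S : Finset (Fin k), (sg (fun i => if i ∈ S then ε i else false) : ℚ) *
      g (fun i => if i ∈ S then ε i else false) = g (fun _ => false) := by
    intro S
    induction S using Finset.induction_on with
    | empty => simp [sg_false]
    | insert j S hj ih =>
      by_cases h : ε j = true
      · have he : (fun i => if i ∈ insert j S then ε i else false) =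
            Function.update (fun i => if i ∈ S then ε i else false) j
              (!(fun i => if i ∈ S then ε i else false) j) := by
          funext i
          by_cases hij : i = j
          · subst hij
            simp [hj, h]
          · rw [Function.update_of_ne hij]
            simp [hij]
        rw [he, sg_update]
        have h1 := hg (fun i => if i ∈ S then ε i else false) j
        rw [← ih]
        push_cast
        rw [h1]
        ring
      · have he : (fun i => if i ∈ insert j S then ε i else false) =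
            (fun i => if i ∈ S then ε i else false) := by
          funext i
          by_cases hij : i = j
          · subst hij
            simp [hj, h]
          · simp [hij]
        rw [he]; exact ih
  have h1 := key univ
  simp only [Finset.mem_univ, if_true] at h1
  have h2 : (sg ε : ℚ) * (sg ε : ℚ) = 1 := by
    have := sg_mul_self ε
    exact_mod_cast this
  calc g ε = ((sg ε : ℚ) * (sg ε : ℚ)) * g ε := by rw [h2, one_mul]
    _ = (sg ε : ℚ) * ((sg ε : ℚ) * g ε) := by ring
    _ = (sg ε : ℚ) * g (fun _ => false) := by rw [h1]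

theorem flp_false {R : Type*} [CommRing R] {k : ℕ} (X : Fin k → R) : flp (fun _ => false) X = X := by
  funext i; simp [flp]

/-- The residue as an additive map. -/
noncomputable def resHom (h2 : S_EH3) (k : ℕ) : E k →+ ℚ := AddMonoidHom.mk' res (h2 k).1

theorem resHom_apply (h2 : S_EH3) (k : ℕ) (f : E k) : resHom h2 k f = res f := rfl

theorem res_sum {ι : Type*} (h2 : S_EH3) (k : ℕ) (s : Finset ι) (f : ι → E k) :
    res (∑ i ∈ s, f i) = ∑ i ∈ s, res (f i) := by
  have := map_sum (resHom h2 k) f s
  simpa only [resHom_apply] using this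

theorem res_zsmul (h2 : S_EH3) (k : ℕ) (z : ℤ) (f : E k) : res (z • f) = (z : ℚ) * res f := by
  have := map_zsmul (resHom h2 k) z f
  rw [resHom_apply, resHom_apply] at this
  rw [this, zsmul_eq_mul]

/-- The residue of one term of the expansion. -/
noncomputable def RR (k n : ℕ) (σ : Equiv.Perm (Fin k)) (ε : Fin k → Bool) : ℚ :=
  res (psi (xx (k := k)) * ff (st k) (flp ε xx ∘ σ) /
      (dd (xx (k := k)) * (∏ i, uu (xx i)) ^ (n + k + 1)))

theorem res_aa (h2 : S_EH3) (k n : ℕ) (ε : Fin k → Bool) :
    res (psi (xx (k := k)) * aa (st k) (flp ε xx) /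
      (dd (xx (k := k)) * (∏ i, uu (xx i)) ^ (n + k + 1))) =
    ∑ σ : Equiv.Perm (Fin k), ((Equiv.Perm.sign σ : ℤ) : ℚ) * RR k n σ ε := by
  unfold aa RR
  rw [Finset.mul_sum, Finset.sum_div, res_sum h2]
  apply Finset.sum_congr rfl
  intro σ _
  rw [mul_smul_comm, smul_div_assoc, res_zsmul h2]

theorem gsym (h1 : S_DG) (h2 : S_EH3) : S_GSYM := by
  intro k n hkn
  have hodd : ∀ (σ : Equiv.Perm (Fin k)) (ε : Fin k → Bool),
      RR k n σ ε = (sg ε : ℚ) * RR k n σ (fun _ => false) := by
    intro σ ε
    exact odd_fun (RR k n σ) (fun ε j => h1 k n hkn σ ε j) ε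
  have hg : gres k n (st k) = ∑ σ : Equiv.Perm (Fin k),
      ((Equiv.Perm.sign σ : ℤ) : ℚ) * RR k n σ (fun _ => false) := by
    rw [← res_aa h2, flp_false]
    rfl
  have hp : res (psi (xx (k := k)) ^ 2 /
      (dd (xx (k := k)) * (∏ i, uu (xx (k := k) i)) ^ (n + k + 1))) =
      ∑ ε : Fin k → Bool, (sg ε : ℚ) * ∑ σ : Equiv.Perm (Fin k),
        ((Equiv.Perm.sign σ : ℤ) : ℚ) * RR k n σ ε := by
    have hpsi : psi (xx (k := k)) ^ 2 = psi (xx (k := k)) *
        ∑ ε : Fin k → Bool, sg ε • aa (st k) (flp ε xx) := by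
      rw [sq]
      rfl
    rw [hpsi, Finset.mul_sum, Finset.sum_div, res_sum h2]
    apply Finset.sum_congr rfl
    intro ε _
    rw [mul_smul_comm, smul_div_assoc, res_zsmul h2, res_aa h2]
  rw [hp, hg]
  have hterm : ∀ ε : Fin k → Bool, (sg ε : ℚ) * ∑ σ : Equiv.Perm (Fin k),
        ((Equiv.Perm.sign σ : ℤ) : ℚ) * RR k n σ ε =
      ∑ σ : Equiv.Perm (Fin k), ((Equiv.Perm.sign σ : ℤ) : ℚ) * RR k n σ (fun _ => false) := by
    intro ε
    rw [Finset.mul_sum]
    apply Finset.sum_congr rfl
    intro σ _
    rw [hodd σ ε]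
    have h3 : (sg ε : ℚ) * (sg ε : ℚ) = 1 := by
      have := sg_mul_self ε
      exact_mod_cast this
    calc (sg ε : ℚ) * (((Equiv.Perm.sign σ : ℤ) : ℚ) * ((sg ε : ℚ) * RR k n σ (fun _ => false)))
        = ((sg ε : ℚ) * (sg ε : ℚ)) *
          (((Equiv.Perm.sign σ : ℤ) : ℚ) * RR k n σ (fun _ => false)) := by ring
      _ = _ := by rw [h3, one_mul]
  rw [Finset.sum_congr rfl fun ε _ => hterm ε, Finset.sum_const, Finset.card_univ, nsmul_eq_mul]
  simp

end Pool.Agent.H747.GM174
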